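import Pool.Agent.V11244.CohCore

/-!
# The `k`-Rothberger and `k`-Menger games on compact spaces after forcing

* compactness of scattered compact Hausdorff spaces is preserved by all forcings, so that II keeps
  the winning strategies;
* compact Hausdorff spaces which are not scattered have a closed subset mapping onto the Cantor
  space, and Cohen forcing destroys the winning strategies of II on all spaces of this kind.
-/

namespace Pool.Agent.K3h37.KGames

open Pool.Agent.Helper669.Forcing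
open Pool.Agent.V11244.CohGame
open Pool.Agent.V11244.CohCore (Coh Can Nm fLegal Strat no_strat)
open Set TopologicalSpace

set_option linter.unusedSectionVars false

universe u v

/-! ### General facts -/

section general

variable {P : Type u} [Preorder P]

theorem meets_of_dense {N : Set P} {p : P} (h : ∀ q ≤ p, ∃ r ≤ q, r ∈ meets N) :
    p ∈ meets N := by
  intro q hq
  obtain ⟨r, hr, h1⟩ := h q hq
  obtain ⟨r', hr', s, hs, h2⟩ := h1 r le_rfl
  exact ⟨r', hr'.trans hr, s, hs, h2⟩

theorem exists_of_meets' {N : Set P} {p : P} (h : p ∈ meets N) : ∃ r ≤ p, ∃ s ∈ N, r ≤ s :=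
  h p le_rfl

variable {X : Type v} [TopologicalSpace X]

/-- The named family is a cover of `X` by ground model open sets, and all finite unions of members
are contained in members. -/
def fDir (A : Set X → Set P) : Set P :=
  fand (fOpenCover A) (fall fun F : Finset (Set X) =>
    fimp (fall fun O : Set X => fall fun _ : O ∈ F => meets (A O))
      (fex fun O' : Set X => fex fun _ : (⋃ O ∈ F, O) ⊆ O' => meets (A O')))

theorem kcover_of_dir {A : Set X → Set P} {p : P} (h : p ∈ fDir A) : p ∈ fKCover A := by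
  obtain ⟨⟨h1, h2⟩, h3⟩ := h
  refine ⟨h1, fun K => mem_fimp.2 fun q hq hK => ?_⟩
  obtain ⟨r, hr, h4⟩ := mem_fimp.1 (hK A) q le_rfl ⟨down_fall (fun _ => down_fimp _ _) _ h1 _ hq,
    fun x => mem_fimp.2 fun q' hq' _ => ⟨q', le_rfl,
      down_fex _ _ (h2 x) _ (hq'.trans hq)⟩⟩
  obtain ⟨r1, hr1, F, h5, h6⟩ := mem_fex.1 h4 r le_rfl
  obtain ⟨r2, hr2, h7⟩ := mem_fimp.1 (h3 F) r1 (hr1.trans (hr.trans hq)) h5
  obtain ⟨r3, hr3, O', h8⟩ := mem_fex.1 h7 r2 le_rfl
  obtain ⟨r4, hr4, hsub, h9⟩ := mem_fex.1 h8 r3 le_rfl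
  refine ⟨r4, hr4.trans (hr3.trans (hr2.trans (hr1.trans hr))), ?_⟩
  have h10 : r4 ∈ (fall fun x => fimp (meets (K x)) (fground (x ∈ O')) : Set P) := by
    intro x
    refine mem_fimp.2 fun q' hq' hx => ?_
    obtain ⟨r', hr', h9⟩ := mem_fimp.1 (h6 x) q' (hq'.trans (hr4.trans (hr3.trans hr2))) hx
    refine ⟨r', hr', ?_⟩
    obtain ⟨O, hO, hxO⟩ := h9
    exact hsub (mem_iUnion₂.2 ⟨O, hO, hxO⟩)
  exact mem_fex_of_mem O' (down_fand (down_meets _) (down_fall fun _ => down_fimp _ _)) ⟨h9, h10⟩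

theorem finite_of_single {A : Set X → Set P} {p : P} (h : p ∈ fSingle A) : p ∈ fFinite A := by
  refine mem_fex.2 fun q hq => ?_
  obtain ⟨r, hr, O, h1⟩ := mem_fex.1 h.1 q hq
  refine ⟨r, hr, {O}, fun O' => mem_fimp.2 fun q' hq' h2 => ?_⟩
  obtain ⟨r', hr', h3⟩ := mem_fimp.1 (h.2 O O') q' (hq'.trans (hr.trans hq))
    ⟨down_meets _ _ h1 _ hq', h2⟩
  refine ⟨r', hr', ?_⟩
  rw [mem_fground, Finset.mem_singleton]
  exact (mem_fground.1 h3).symm

theorem covers_of_kcover {A : Set X → Set P} {p : P} (h : p ∈ fKCover A) : p ∈ fCovers A := by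
  intro x
  -- the named singleton
  have hmem : ∀ (q : P) (y : X), q ∈ meets ({r | y = x} : Set P) → y = x := by
    intro q y hq
    obtain ⟨-, -, s, hs, -⟩ := hq q le_rfl
    exact hs
  have hK : p ∈ fCompact (fun y : X => ({r | y = x} : Set P)) := by
    intro B
    refine mem_fimp.2 fun q hq hB => ?_
    obtain ⟨r, hr, h1⟩ := mem_fimp.1 (hB.2 x) q le_rfl (meets_of_mem rfl)
    obtain ⟨r1, hr1, O, h2⟩ := mem_fex.1 h1 r le_rfl
    obtain ⟨r2, hr2, hxO, h3⟩ := mem_fex.1 h2 r1 le_rfl
    refine ⟨r2, hr2.trans (hr1.trans hr), mem_fex_of_mem {O} (down_fand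
      (down_fall fun _ => down_fall fun _ => down_meets _) (down_fall fun _ => down_fimp _ _))
      ⟨fun O' hO' => ?_, fun y => mem_fimp.2 fun q' hq' h4 => ⟨q', le_rfl, ?_⟩⟩⟩
    · rw [Finset.mem_singleton] at hO'
      subst hO'
      exact h3
    · have := hmem q' y h4
      subst this
      exact ⟨O, Finset.mem_singleton_self O, hxO⟩
  refine mem_fex.2 fun q hq => ?_
  obtain ⟨r, hr, h1⟩ := mem_fimp.1 (h.2 _) q hq (down_fall (fun _ => down_fimp _ _) _ hK _ hq)
  obtain ⟨r1, hr1, O, h2, h3⟩ := mem_fex.1 h1 r le_rfl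
  obtain ⟨r2, hr2, h4⟩ := mem_fimp.1 (h3 x) r1 le_rfl (meets_of_mem rfl)
  refine ⟨r2, hr2.trans (hr1.trans hr), O, mem_fex_of_mem h4 (down_meets _) ?_⟩
  exact down_meets _ _ h2 _ hr2

end general

/-! ### Scattered compact spaces -/

section scattered

variable {P : Type u} [Preorder P] {X : Type v} [TopologicalSpace X]

/-- `X` is scattered: every nonempty subset has an isolated point. -/
def Scattered (X : Type v) [TopologicalSpace X] : Prop :=
  ∀ C : Set X, C.Nonempty → ∃ x ∈ C, ∃ U, IsOpen U ∧ U ∩ C = {x}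

/-- A scattered compact Hausdorff space stays compact in all extensions. -/
theorem compact_of_scattered [CompactSpace X] [T2Space X] (hX : Scattered X) (p : P) :
    p ∈ fCompact (fun _ : X => (univ : Set P)) := by
  classical
  intro A
  refine mem_fimp.2 fun q _ hA => ?_
  obtain ⟨hA1, hA2⟩ := hA
  -- the subsets covered by finite subfamilies
  let Good : Set X → Prop := fun C => ∀ q' ≤ q, ∃ r ≤ q', ∃ F : Finset (Set X),
    (∀ O ∈ F, r ∈ meets (A O)) ∧ C ⊆ ⋃ O ∈ F, O
  have hmono : ∀ {C D : Set X}, C ⊆ D → Good D → Good C := by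
    intro C D h hD q' hq'
    obtain ⟨r, hr, F, h1, h2⟩ := hD q' hq'
    exact ⟨r, hr, F, h1, h.trans h2⟩
  have hunion : ∀ {C D : Set X}, Good C → Good D → Good (C ∪ D) := by
    intro C D hC hD q' hq'
    obtain ⟨r, hr, F, h1, h2⟩ := hC q' hq'
    obtain ⟨r', hr', F', h1', h2'⟩ := hD r (hr.trans hq')
    refine ⟨r', hr'.trans hr, F ∪ F', fun O hO => ?_, ?_⟩
    · rcases Finset.mem_union.1 hO with h | h
      · exact down_meets _ _ (h1 O h) _ hr'
      · exact h1' O h
    · rw [Finset.set_biUnion_union]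
      exact union_subset_union h2 h2'
  have hempty : Good ∅ := fun q' _ => ⟨q', le_rfl, ∅, by simp, empty_subset _⟩
  let W : Set X := ⋃₀ {N | IsOpen N ∧ Good N}
  -- compact subsets of `W` are good
  have hcomp : ∀ C : Set X, IsCompact C → C ⊆ W → Good C := by
    intro C hC hCW
    refine hC.induction_on (p := Good) hempty (fun s t hst ht => hmono hst ht)
      (fun s t hs ht => hunion hs ht) fun x hx => ?_
    obtain ⟨N, ⟨hN1, hN2⟩, hxN⟩ := hCW hx
    exact ⟨N, mem_nhdsWithin_of_mem_nhds (hN1.mem_nhds hxN), hN2⟩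
  have hW : W = univ := by
    by_contra hne
    have hne' : (Wᶜ).Nonempty := nonempty_compl.2 hne
    obtain ⟨x, hx, U, hU, hUx⟩ := hX _ hne'
    have hxU : x ∈ U := (hUx.symm.subset (mem_singleton x)).1
    obtain ⟨C, hCx, hC1, hC2⟩ := exists_mem_nhds_isClosed_subset (hU.mem_nhds hxU)
    obtain ⟨N, hNC, hN, hxN⟩ := mem_nhds_iff.1 hCx
    apply hx
    refine mem_sUnion.2 ⟨N, ⟨hN, fun q' hq' => ?_⟩, hxN⟩
    obtain ⟨r, hr, h1⟩ := mem_fimp.1 (hA2 x) q' hq' (meets_of_mem (mem_univ q'))
    obtain ⟨r1, hr1, O, h2⟩ := mem_fex.1 h1 r le_rfl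
    obtain ⟨r2, hr2, hxO, h3⟩ := mem_fex.1 h2 r1 le_rfl
    have hr2q : r2 ≤ q := hr2.trans (hr1.trans (hr.trans hq'))
    obtain ⟨r3, hr3, h4⟩ := mem_fimp.1 (hA1 O) r2 hr2q h3
    have hO : IsOpen O := h4
    have hgood : Good (C \ O) := by
      refine hcomp _ ((hC1.inter hO.isClosed_compl).isCompact) fun y hy => ?_
      by_contra hyW
      have h5 : y ∈ U ∩ Wᶜ := ⟨hC2 hy.1, hyW⟩
      rw [hUx] at h5
      exact hy.2 (by rw [mem_singleton_iff.1 h5]; exact hxO)
    obtain ⟨r4, hr4, F, h5, h6⟩ := hgood r3 (hr3.trans hr2q)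
    refine ⟨r4, hr4.trans (hr3.trans (hr2.trans (hr1.trans hr))), insert O F, fun O' hO' => ?_,
      fun y hy => ?_⟩
    · rcases Finset.mem_insert.1 hO' with rfl | h7
      · exact down_meets _ _ h3 _ (hr4.trans hr3)
      · exact h5 O' h7
    · by_cases hyO : y ∈ O
      · exact mem_iUnion₂.2 ⟨O, Finset.mem_insert_self _ _, hyO⟩
      · obtain ⟨O', hO', h7⟩ := mem_iUnion₂.1 (h6 ⟨hNC hy, hyO⟩)
        exact mem_iUnion₂.2 ⟨O', Finset.mem_insert_of_mem hO', h7⟩
  obtain ⟨r, hr, F, h1, h2⟩ := hcomp univ isCompact_univ (by rw [hW]) q le_rfl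
  refine ⟨r, hr, mem_fex_of_mem F (down_fand
      (down_fall fun _ => down_fall fun _ => down_meets _) (down_fall fun _ => down_fimp _ _))
      ⟨fun O hO => h1 O hO, fun x => mem_fimp.2 fun q' _ _ => ⟨q', le_rfl, ?_⟩⟩⟩
  obtain ⟨O, hO, hxO⟩ := mem_iUnion₂.1 (h2 (mem_univ x))
  exact ⟨O, hO, hxO⟩

theorem univ_mem_of_kcover {A : Set X → Set P} {p : P}
    (hp : ∀ q ≤ p, q ∈ fCompact (fun _ : X => (univ : Set P)))
    (h : p ∈ fKCover A) : p ∈ meets (A univ) := by
  refine meets_of_dense fun q hq => ?_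
  obtain ⟨r, hr, h1⟩ := mem_fimp.1 (h.2 _) q hq (hp q hq)
  obtain ⟨r1, hr1, O, h2, h3⟩ := mem_fex.1 h1 r le_rfl
  refine ⟨r1, hr1.trans hr, ?_⟩
  have hO : O = univ := by
    refine eq_univ_of_forall fun x => ?_
    obtain ⟨r', -, h4⟩ := mem_fimp.1 (h3 x) r1 le_rfl (meets_of_mem (mem_univ r1))
    exact h4
  rw [← hO]
  exact h2

/-- On a scattered compact Hausdorff space, II keeps the winning strategy in the `k`-Rothberger
game in all forcing extensions. -/
theorem winsOne_of_scattered [CompactSpace X] [T2Space X] (hX : Scattered X) (p : P) :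
    p ∈ fIIWinsOne (P := P) (X := X) fKCover fKCover := by
  refine mem_fex_of_mem (fun _ _ O => {_r : P | O = univ}) ?_ ⟨?_, ?_, ?_⟩
  · exact down_fand (down_fall fun _ => down_fall fun _ => down_fall fun _ => down_fimp _ _)
      (down_fand (down_fall fun _ => down_fall fun _ => down_fimp _ _)
        (down_fall fun _ => down_fimp _ _))
  · exact fun n A B => mem_fimp.2 fun q _ _ => ⟨q, le_rfl, fun O =>
      ⟨mem_fimp.2 fun q' _ h => ⟨q', le_rfl, h⟩, mem_fimp.2 fun q' _ h => ⟨q', le_rfl, h⟩⟩⟩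
  · refine fun n A => mem_fimp.2 fun q _ hq => ⟨q, le_rfl, ⟨?_, ?_⟩, ?_⟩
    · exact mem_fex_of_mem univ (down_meets _) (meets_of_mem rfl)
    · intro O O'
      refine mem_fimp.2 fun q' _ h => ⟨q', le_rfl, ?_⟩
      obtain ⟨-, -, s, hs, -⟩ := h.1 q' le_rfl
      obtain ⟨-, -, s', hs', -⟩ := h.2 q' le_rfl
      exact (hs : O = univ).trans (hs' : O' = univ).symm
    · intro O
      refine mem_fimp.2 fun q' hq' h => ⟨q', le_rfl, ?_⟩
      obtain ⟨-, -, s, hs, -⟩ := h q' le_rfl
      have hO : O = univ := hs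
      subst hO
      exact down_meets _ _ (univ_mem_of_kcover (fun q _ => compact_of_scattered hX q)
        (hq (Fin.last n))) _ hq'
  · refine fun A => mem_fimp.2 fun q _ hq => ⟨q, le_rfl, ⟨?_, ?_⟩⟩
    · intro O
      refine mem_fimp.2 fun q' _ h => ⟨q', le_rfl, ?_⟩
      obtain ⟨-, -, s, hs, -⟩ := h q' le_rfl
      obtain ⟨n, hn⟩ := mem_iUnion.1 hs
      have hO : O = univ := hn
      subst hO
      exact isOpen_univ
    · intro K
      refine mem_fimp.2 fun q' _ _ => ⟨q', le_rfl, mem_fex_of_mem univ (down_fand (down_meets _)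
        (down_fall fun _ => down_fimp _ _)) ⟨meets_of_mem (mem_iUnion.2 ⟨0, rfl⟩), fun x => ?_⟩⟩
      exact mem_fimp.2 fun q'' _ _ => ⟨q'', le_rfl, mem_univ x⟩

/-- On a scattered compact Hausdorff space, II keeps the winning strategy in the `k`-Menger
game in all forcing extensions. -/
theorem winsFin_of_scattered [CompactSpace X] [T2Space X] (hX : Scattered X) (p : P) :
    p ∈ fIIWinsFin (P := P) (X := X) fKCover fKCover := by
  refine mem_fex.2 fun q hq => ?_
  obtain ⟨r, hr, S, h1, h2, h3⟩ := mem_fex.1 (winsOne_of_scattered (P := P) hX p) q hq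
  refine ⟨r, hr, S, h1, fun n A => mem_fimp.2 fun q' hq' h => ?_, h3⟩
  obtain ⟨r', hr', h4, h5⟩ := mem_fimp.1 (h2 n A) q' hq' h
  exact ⟨r', hr', finite_of_single h4, h5⟩

end scattered

/-! ### Spaces with a closed subset mapping onto the Cantor space -/

section onto

variable {X : Type v} [TopologicalSpace X]

/-- The open subset of `X` given by a subset of the Cantor space. -/
def psi {C : Set X} (f : C → Can) (O : Set Can) : Set X := {x | ∀ h : x ∈ C, f ⟨x, h⟩ ∈ O}

theorem psi_inj {C : Set X} {f : C → Can} (hf : Function.Surjective f) :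
    Function.Injective (psi f) := by
  intro O O' h
  ext c
  obtain ⟨⟨x, hx⟩, rfl⟩ := hf c
  constructor
  · intro hc
    have h1 : x ∈ psi f O := fun _ => hc
    rw [h] at h1
    exact h1 hx
  · intro hc
    have h1 : x ∈ psi f O' := fun _ => hc
    rw [← h] at h1
    exact h1 hx

theorem isOpen_psi {C : Set X} (hC : IsClosed C) {f : C → Can} (hf : Continuous f) {O : Set Can}
    (hO : IsOpen O) : IsOpen (psi f O) := by
  have h1 : (psi f O)ᶜ = Subtype.val '' (f ⁻¹' Oᶜ) := by
    ext x
    simp only [psi, mem_compl_iff, mem_ofPred_eq, not_forall, mem_image, mem_preimage,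
      Subtype.exists, exists_and_right, exists_eq_right]
  rw [← isClosed_compl_iff, h1]
  exact hC.isClosedEmbedding_subtypeVal.isClosedMap _ (hO.isClosed_compl.preimage hf)

/-- The name for a family on `X` given by a name for a family on the Cantor space. -/
def push {C : Set X} (f : C → Can) (A : Nm) : Set X → Set Coh := fun O' => {r | ∃ O, psi f O = O' ∧ r ∈ A O}

theorem push_psi {C : Set X} {f : C → Can} (hf : Function.Surjective f) (A : Nm) (O : Set Can) :
    push f A (psi f O) = A O := by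
  ext r
  constructor
  · rintro ⟨O', h1, h2⟩
    rwa [psi_inj hf h1] at h2
  · exact fun h => ⟨O, rfl, h⟩

theorem exists_of_push {C : Set X} {f : C → Can} {A : Nm} {O' : Set X} {r : Coh}
    (h : r ∈ meets (push f A O')) : ∃ O, psi f O = O' := by
  obtain ⟨-, -, s, ⟨O, hO, -⟩, -⟩ := h r le_rfl
  exact ⟨O, hO⟩

theorem dir_push {C : Set X} (hC : IsClosed C) {f : C → Can} (hf : Continuous f)
    (hf' : Function.Surjective f) {A : Nm} {p : Coh} (h : p ∈ fLegal A) : p ∈ fDir (push f A) := by
  classical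
  obtain ⟨⟨h1, h2⟩, h3⟩ := h
  refine ⟨⟨fun O' => mem_fimp.2 fun q hq hO' => ?_, fun x => ?_⟩, fun F => ?_⟩
  · obtain ⟨O, rfl⟩ := exists_of_push hO'
    rw [push_psi hf'] at hO'
    obtain ⟨r, hr, h4⟩ := mem_fimp.1 (h1 O) q hq hO'
    exact ⟨r, hr, isOpen_psi hC hf h4⟩
  · refine mem_fex.2 fun q hq => ?_
    by_cases hx : x ∈ C
    · obtain ⟨r, hr, O, h4⟩ := mem_fex.1 (h2 (f ⟨x, hx⟩)) q hq
      obtain ⟨r1, hr1, hxO, h5⟩ := mem_fex.1 h4 r le_rfl
      refine ⟨r1, hr1.trans hr, psi f O, mem_fex_of_mem (fun _ => hxO) (down_meets _) ?_⟩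
      rw [push_psi hf']
      exact h5
    · obtain ⟨r, hr, O, h4⟩ := mem_fex.1 (h2 (fun _ => false)) q hq
      obtain ⟨r1, hr1, hxO, h5⟩ := mem_fex.1 h4 r le_rfl
      refine ⟨r1, hr1.trans hr, psi f O, mem_fex_of_mem (fun h => absurd h hx) (down_meets _) ?_⟩
      rw [push_psi hf']
      exact h5
  · refine mem_fimp.2 fun q hq hF => ?_
    have hex : ∀ O' ∈ F, ∃ O, psi f O = O' := fun O' hO' => exists_of_push (hF O' hO')
    let G : Finset (Set Can) := F.preimage (psi f) ((psi_inj hf').injOn)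
    obtain ⟨r, hr, h4⟩ := mem_fimp.1 (h3 G) q hq (fun O hO => by
      have h5 := hF (psi f O) (Finset.mem_preimage.1 hO)
      rwa [push_psi hf'] at h5)
    refine ⟨r, hr, mem_fex_of_mem (psi f (⋃ O ∈ G, O)) (down_fex _)
      (mem_fex_of_mem ?_ (down_meets _) ?_)⟩
    · intro x hx
      obtain ⟨O', hO', hxO⟩ := mem_iUnion₂.1 hx
      obtain ⟨O, rfl⟩ := hex O' hO'
      intro hxC
      exact mem_iUnion₂.2 ⟨O, Finset.mem_preimage.2 hO', hxO hxC⟩
    · rw [push_psi hf']
      exact h4

theorem same_push {C : Set X} {f : C → Can} (hf' : Function.Surjective f) {A B : Nm} {p : Coh}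
    (h : p ∈ fSame A B) : p ∈ fSame (push f A) (push f B) := by
  intro O'
  refine ⟨mem_fimp.2 fun q hq hO' => ?_, mem_fimp.2 fun q hq hO' => ?_⟩
  · obtain ⟨O, rfl⟩ := exists_of_push hO'
    rw [push_psi hf'] at hO' ⊢
    exact mem_fimp.1 (h O).1 q hq hO'
  · obtain ⟨O, rfl⟩ := exists_of_push hO'
    rw [push_psi hf'] at hO' ⊢
    exact mem_fimp.1 (h O).2 q hq hO'

theorem strat_of_winning {C : Set X} (hC : IsClosed C) {f : C → Can} (hf : Continuous f)
    (hf' : Function.Surjective f) {𝒞 : (Set X → Set Coh) → Set Coh}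
    (h𝒞 : ∀ A p, p ∈ 𝒞 A → p ∈ fFinite A) {q₀ : Coh}
    {S : (n : ℕ) → (Fin (n + 1) → Set X → Set Coh) → Set X → Set Coh}
    (h : q₀ ∈ fWinning fKCover 𝒞 fKCover S) :
    Strat q₀ (fun n A O => S n (fun i => push f (A i)) (psi f O)) where
  ext := by
    intro n A B q hq hAB
    obtain ⟨r, hr, h1⟩ := mem_fimp.1 (h.1 n (fun i => push f (A i)) (fun i => push f (B i))) q hq
      fun i => same_push hf' (hAB i)
    exact ⟨r, hr, fun O => h1 (psi f O)⟩
  ans := by
    intro n A hAl q hq
    obtain ⟨r, hr, h1, h2⟩ := mem_fimp.1 (h.2.1 n (fun i => push f (A i))) q hq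
      fun i => kcover_of_dir (dir_push hC hf hf' (hAl i q hq))
    obtain ⟨r1, hr1, F, h3⟩ := mem_fex.1 (h𝒞 _ _ h1) r le_rfl
    refine ⟨r1, hr1.trans hr, F.preimage (psi f) ((psi_inj hf').injOn),
      fun O r' hr' h4 => ⟨?_, ?_⟩⟩
    · obtain ⟨_, _, h5⟩ := mem_fimp.1 (h3 (psi f O)) r' hr' h4
      exact Finset.mem_preimage.2 h5
    · obtain ⟨r'', hr'', h5⟩ := mem_fimp.1 (h2 (psi f O)) r' (hr'.trans hr1) h4
      dsimp only at h5
      rw [push_psi hf'] at h5
      exact ⟨r'', hr'', h5⟩
  cov := by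
    intro A hAl x q hq
    have hleg : ∀ n, ∀ p ≤ q₀, p ∈ fKCover (push f (A n)) := fun n p hp =>
      kcover_of_dir (dir_push hC hf hf' (hAl n p hp))
    obtain ⟨r, hr, h1⟩ := mem_fimp.1 (h.2.2 fun n => push f (A n)) q hq fun n => hleg n q hq
    obtain ⟨⟨y, hy⟩, hyx⟩ := hf' x
    obtain ⟨r1, hr1, O', h2⟩ := mem_fex.1 (covers_of_kcover h1 y) r le_rfl
    obtain ⟨r2, hr2, hyO, h3⟩ := mem_fex.1 h2 r1 le_rfl
    obtain ⟨r3, hr3, s, hs, h4⟩ := h3 r2 le_rfl
    obtain ⟨n, hn⟩ := mem_iUnion.1 hs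
    have hr3q : r3 ≤ q := hr3.trans (hr2.trans (hr1.trans hr))
    have h5 : r3 ∈ meets (S n (fun i : Fin (n + 1) => push f (A i)) O') := meets_of_le hn h4
    obtain ⟨r4, hr4, -, h6⟩ := mem_fimp.1 (h.2.1 n (fun i : Fin (n + 1) => push f (A i))) r3
      (hr3q.trans hq) fun i => hleg i r3 (hr3q.trans hq)
    obtain ⟨r5, hr5, h7⟩ := mem_fimp.1 (h6 O') r4 le_rfl (down_meets _ _ h5 _ hr4)
    obtain ⟨O, rfl⟩ := exists_of_push h7
    refine ⟨r3, hr3q, n, O, ?_, h5⟩
    have h8 := hyO hy
    rwa [hyx] at h8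

/-- Cohen forcing destroys the winning strategies of II in the `k`-Menger game on spaces with
a closed subset mapping onto the Cantor space. -/
theorem no_kmenger {C : Set X} (hC : IsClosed C) {f : C → Can} (hf : Continuous f)
    (hf' : Function.Surjective f) (p : Coh) :
    p ∈ fnot (fIIWinsFin (P := Coh) (X := X) fKCover fKCover) := by
  intro q _ hq
  obtain ⟨r, _, S, hS⟩ := mem_fex.1 hq q le_rfl
  exact no_strat (strat_of_winning hC hf hf' (fun A p h => h) hS)

/-- Cohen forcing destroys the winning strategies of II in the `k`-Rothberger game on spaces with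
a closed subset mapping onto the Cantor space. -/
theorem no_krothberger {C : Set X} (hC : IsClosed C) {f : C → Can} (hf : Continuous f)
    (hf' : Function.Surjective f) (p : Coh) :
    p ∈ fnot (fIIWinsOne (P := Coh) (X := X) fKCover fKCover) := by
  intro q _ hq
  obtain ⟨r, _, S, hS⟩ := mem_fex.1 hq q le_rfl
  exact no_strat (strat_of_winning hC hf hf' (fun A p h => finite_of_single h) hS)

end onto

/-! ### Compact Hausdorff spaces which are not scattered -/

section scheme

variable {X : Type v} [TopologicalSpace X] [CompactSpace X] [T2Space X]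

/-- Nonempty open subsets of `K`, for a set `K` without isolated points, can be split. -/
theorem exists_split {K : Set X} (hK : ∀ x ∈ K, ∀ U, IsOpen U → x ∈ U → ∃ y ∈ U ∩ K, y ≠ x)
    (V : {V : Set X // IsOpen V ∧ (V ∩ K).Nonempty}) :
    ∃ W : Bool → {V : Set X // IsOpen V ∧ (V ∩ K).Nonempty},
      (∀ b, closure (W b).1 ⊆ V.1) ∧ Disjoint (W false).1 (W true).1 ∧
        Disjoint (closure (W false).1) (closure (W true).1) := by
  obtain ⟨V, hV, x, hxV, hxK⟩ := V
  obtain ⟨y, ⟨hyV, hyK⟩, hne⟩ := hK x hxK V hV hxV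
  obtain ⟨u, hxu, hu, v, hyv, hv, huv⟩ := exists_open_nhds_disjoint_closure hne.symm
  obtain ⟨C, hCx, hC1, hC2⟩ := exists_mem_nhds_isClosed_subset ((hu.inter hV).mem_nhds ⟨hxu, hxV⟩)
  obtain ⟨D, hDy, hD1, hD2⟩ := exists_mem_nhds_isClosed_subset ((hv.inter hV).mem_nhds ⟨hyv, hyV⟩)
  have h1 : closure (interior C) ⊆ u ∩ V := (closure_minimal interior_subset hC1).trans hC2
  have h2 : closure (interior D) ⊆ v ∩ V := (closure_minimal interior_subset hD1).trans hD2
  have h3 : Disjoint (closure (interior C)) (closure (interior D)) :=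
    huv.mono ((h1.trans inter_subset_left).trans subset_closure)
      ((h2.trans inter_subset_left).trans subset_closure)
  refine ⟨fun b => bif b then ⟨interior D, isOpen_interior, y, mem_interior_iff_mem_nhds.2 hDy, hyK⟩
    else ⟨interior C, isOpen_interior, x, mem_interior_iff_mem_nhds.2 hCx, hxK⟩, ?_, ?_, ?_⟩
  · rintro (_ | _)
    · exact h1.trans inter_subset_right
    · exact h2.trans inter_subset_right
  · exact h3.mono subset_closure subset_closure
  · exact h3

/-- A compact Hausdorff space with a nonempty subset without isolated points has a closed subset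
mapping onto the Cantor space. -/
theorem exists_onto {K : Set X} (hne : K.Nonempty)
    (hK : ∀ x ∈ K, ∀ U, IsOpen U → x ∈ U → ∃ y ∈ U ∩ K, y ≠ x) :
    ∃ C : Set X, IsClosed C ∧ ∃ f : C → Can, Continuous f ∧ Function.Surjective f := by
  choose W hW1 hW2 hW3 using exists_split hK
  let T : Type v := {V : Set X // IsOpen V ∧ (V ∩ K).Nonempty}
  let U : List Bool → T := fun l =>
    List.rec (motive := fun _ => T) ⟨univ, isOpen_univ, by simpa using hne⟩ (fun b _ V => W V b) l
  have hU : ∀ b l, U (b :: l) = W (U l) b := fun b l => rfl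
  have hnest : ∀ b l, closure (U (b :: l)).1 ⊆ (U l).1 := fun b l => by rw [hU]; exact hW1 _ b
  have hdisj : ∀ s t : List Bool, s.length = t.length → s ≠ t → Disjoint (U s).1 (U t).1 := by
    intro s
    induction s with
    | nil =>
      intro t ht hne
      exact absurd (List.length_eq_zero_iff.1 ht.symm).symm hne
    | cons b s ih =>
      intro t ht hne
      cases t with
      | nil => simp at ht
      | cons b' t =>
        by_cases hst : s = t
        · subst hst
          have hb : b ≠ b' := fun h => hne (by rw [h])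
          cases b <;> cases b'
          · exact absurd rfl hb
          · exact hW2 (U s)
          · exact (hW2 (U s)).symm
          · exact absurd rfl hb
        · exact (ih t (by simpa using ht) hst).mono (subset_closure.trans (hnest b s))
            (subset_closure.trans (hnest b' t))
  -- the levels
  let A : ℕ → Bool → Set X := fun n b => ⋃ s ∈ {s : List Bool | s.length = n}, closure (U (b :: s)).1
  have hA : ∀ n b, IsClosed (A n b) := fun n b =>
    (List.finite_length_eq Bool n).isClosed_biUnion fun s _ => isClosed_closure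
  have hAd : ∀ n, Disjoint (A n false) (A n true) := by
    intro n
    rw [disjoint_left]
    intro x hx hx'
    obtain ⟨s, hs, h1⟩ := mem_iUnion₂.1 hx
    obtain ⟨t, ht, h2⟩ := mem_iUnion₂.1 hx'
    by_cases hst : s = t
    · subst hst
      exact disjoint_left.1 (hW3 (U s)) h1 h2
    · exact disjoint_left.1 (hdisj s t (by rw [hs, ht]) hst) (hnest _ _ h1) (hnest _ _ h2)
  classical
  let C : Set X := ⋂ n, (A n false ∪ A n true)
  have hC : IsClosed C := isClosed_iInter fun n => (hA n false).union (hA n true)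
  let f : C → Can := fun x n => decide ((x : X) ∈ A n true)
  have hf : ∀ (x : C) n b, f x n = b ↔ (x : X) ∈ A n b := by
    intro x n b
    have h1 := mem_iInter.1 x.2 n
    cases b
    · simp only [f, decide_eq_false_iff_not]
      constructor
      · intro h2
        exact h1.resolve_right h2
      · intro h2 h3
        exact disjoint_left.1 (hAd n) h2 h3
    · simp [f]
  refine ⟨C, hC, f, ?_, ?_⟩
  · refine continuous_pi fun n => ?_
    refine continuous_discrete_rng.2 fun b => ?_
    have h1 : ∀ b, IsClosed ((fun x : C => f x n) ⁻¹' {b}) := by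
      intro b
      have h2 : ((fun x : C => f x n) ⁻¹' {b}) = Subtype.val ⁻¹' (A n b) := by
        ext x
        exact hf x n b
      rw [h2]
      exact (hA n b).preimage continuous_subtype_val
    have h3 : ((fun x : C => f x n) ⁻¹' {b}) = ((fun x : C => f x n) ⁻¹' {!b})ᶜ := by
      ext x
      simp only [mem_preimage, mem_singleton_iff, mem_compl_iff]
      cases f x n <;> cases b <;> simp
    rw [h3]
    exact (h1 _).isOpen_compl
  · intro c
    let l : ℕ → List Bool := fun n => Nat.rec [] (fun n s => c n :: s) n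
    have hl : ∀ n, l (n + 1) = c n :: l n := fun n => rfl
    have hlen : ∀ n, (l n).length = n := by
      intro n
      induction n with
      | zero => rfl
      | succ n ih => rw [hl, List.length_cons, ih]
    obtain ⟨x, hx⟩ := IsCompact.nonempty_iInter_of_sequence_nonempty_isCompact_isClosed
      (fun n => closure (U (l (n + 1))).1)
      (fun n => (hnest (c (n + 1)) (l (n + 1))).trans subset_closure)
      (fun n => by
        obtain ⟨y, hy, -⟩ := (U (l (n + 1))).2.2
        exact ⟨y, subset_closure hy⟩)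
      isClosed_closure.isCompact (fun n => isClosed_closure)
    have hxA : ∀ n, x ∈ A n (c n) := by
      intro n
      refine mem_iUnion₂.2 ⟨l n, hlen n, ?_⟩
      have h1 := mem_iInter.1 hx n
      rwa [hl] at h1
    have hxC : x ∈ C := mem_iInter.2 fun n => by
      have h1 := hxA n
      cases h2 : c n
      · exact Or.inl (by rwa [h2] at h1)
      · exact Or.inr (by rwa [h2] at h1)
    refine ⟨⟨x, hxC⟩, funext fun n => ?_⟩
    exact (hf ⟨x, hxC⟩ n (c n)).2 (hxA n)

/-- The Cantor space has no isolated points. -/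
theorem not_scattered_cantor : ¬ Scattered (ℕ → Bool) := by
  intro h
  obtain ⟨x, -, U, hU, hUx⟩ := h univ univ_nonempty
  rw [inter_univ] at hUx
  subst hUx
  have h1 : Filter.Tendsto (fun n => Function.update x n (!x n)) Filter.atTop (nhds x) := by
    rw [tendsto_pi_nhds]
    intro i
    refine tendsto_const_nhds.congr' ?_
    filter_upwards [Filter.eventually_gt_atTop i] with n hn
    rw [Function.update_of_ne hn.ne]
  obtain ⟨n, hn⟩ := (h1.eventually (hU.mem_nhds (mem_singleton x))).exists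
  have h2 := congrFun (mem_singleton_iff.1 hn) n
  rw [Function.update_self] at h2
  simp at h2

/-- Cohen forcing destroys the winning strategies of II on all compact Hausdorff spaces which are
not scattered. -/
theorem destroys_of_not_scattered (hX : ¬ Scattered X) (p : Coh) :
    p ∈ fnot (fIIWinsOne (P := Coh) (X := X) fKCover fKCover) ∧
      p ∈ fnot (fIIWinsFin (P := Coh) (X := X) fKCover fKCover) := by
  unfold Scattered at hX
  push Not at hX
  obtain ⟨K, hne, hK⟩ := hX
  obtain ⟨C, hC, f, hf, hf'⟩ := exists_onto hne (fun x hx U hU hxU => by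
    by_contra h
    push Not at h
    refine hK x hx U hU (Subset.antisymm (fun y hy => h y hy) ?_)
    rw [singleton_subset_iff]
    exact ⟨hxU, hx⟩)
  exact ⟨no_krothberger hC hf hf' p, no_kmenger hC hf hf' p⟩

end scheme

end Pool.Agent.K3h37.KGames
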